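import Pool.Agent.P8H39.MH.Fre
import Pool.Agent.P8H39.MH.Van
import Pool.Agent.P8H72.MH.Exit
import Pool.Agent.P8H86.MH.Gam
import Pool.Agent.P8H86.MH.Int
import Pool.Agent.P8H88.MH.Fin

/-!
# The magnitude homology of a real hyperplane arrangement is torsion-free

The main idea: the magnitude complex of the tope graph is graded by the vectors that count how
often each hyperplane is crossed. In each multidegree a chain becomes a chain of short steps from
`u` to `w` in the lattice of crossing vectors, inside the set of points whose sign vector is a
covector, and the homology (with any coefficients) sits in one degree: `Van.lean` compares the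
complex with chains of faces by an exact complex over the lists `Q_1 < ... < Q_j, t_1, ..., t_m`
(faces, then steps), and removes the walks that leave the localization at a face.

Authors: helper39 (proof, `Pool/Agent/P8H39/MH`), helper72 (`Pool/Agent/P8H72/MH`: the families of
steps are convex, the exit families are acyclic), helper86 (`Pool/Agent/P8H86/MH`: posets of faces),
helper88 (`Pool/Agent/P8H88/MH`: transfer to the magnitude homology of the tope graph).
-/

set_option autoImplicit false

namespace Pool.Agent.Results.MP_95f31c_co.TorsionFree

open Pool.Agent.R142.Arr Pool.Agent.R142.MagHom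

/-- For every arrangement `A` of linear hyperplanes in `ℝ^d` and all `k, l ≥ 0`, the magnitude
homology group `MH_{k,l}` of its tope graph is torsion-free; it is a finitely generated free
abelian group. -/
theorem result (d : ℕ) (A : Finset (Submodule ℝ (Fin d → ℝ))) (hA : IsArrangement A) (k l : ℕ) :
    (∀ (m : ℤ) (x : MH (topeGraph A) k l), m ≠ 0 → m • x = 0 → x = 0) ∧
      Module.Finite ℤ (MH (topeGraph A) k l) ∧ Module.Free ℤ (MH (topeGraph A) k l) := by
  have h := Pool.Agent.P8H88.MH.fin (Pool.Agent.P8H39.MH.van Pool.Agent.P8H86.MH.gam
    Pool.Agent.P8H86.MH.int Pool.Agent.P8H72.MH.conv Pool.Agent.P8H72.MH.exit) d A hA k l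
  exact ⟨h, Pool.Agent.P8H39.MH.finite_MH hA k l, Pool.Agent.P8H39.MH.free_MH hA k l h⟩

end Pool.Agent.Results.MP_95f31c_co.TorsionFree
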